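import Pool.Agent.Helper28.IV.Spec

/-!
# Intervals of places: sufficiency
-/

set_option autoImplicit false

namespace Pool.Agent.Helper28.IV.A
open Filter Topology
open Pool.Agent.Helper84.Places Pool.Agent.Helper28.IV

/-- a minimal subcover covers no point three times -/
lemma cover (u v : ℕ → ℕ) (F : Finset ℕ) :
    ∃ G ⊆ F, (∀ n, (∃ j ∈ F, u j ≤ n ∧ n < v j) → ∃ j ∈ G, u j ≤ n ∧ n < v j) ∧
      ∀ n, (G.filter fun j => u j ≤ n ∧ n < v j).card ≤ 2 := by
  classical
  obtain ⟨G, hG, hmin⟩ := Finset.exists_min_image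
    (F.powerset.filter fun G => ∀ n, (∃ j ∈ F, u j ≤ n ∧ n < v j) → ∃ j ∈ G, u j ≤ n ∧ n < v j)
    Finset.card ⟨F, by
      rw [Finset.mem_filter]
      exact ⟨Finset.mem_powerset_self F, fun n h => h⟩⟩
  rw [Finset.mem_filter, Finset.mem_powerset] at hG
  refine ⟨G, hG.1, hG.2, fun n => ?_⟩
  by_contra hcon
  push Not at hcon
  set H := G.filter fun j => u j ≤ n ∧ n < v j with hH
  have hne : H.Nonempty := by
    rw [← Finset.card_pos]; omega
  obtain ⟨j1, hj1, hm1⟩ := Finset.exists_min_image H u hne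
  obtain ⟨j2, hj2, hm2⟩ := Finset.exists_max_image H v hne
  obtain ⟨j, hj⟩ : ∃ j, j ∈ (H.erase j1).erase j2 := by
    have h1 := Finset.pred_card_le_card_erase (s := H) (a := j1)
    have h2 := Finset.pred_card_le_card_erase (s := H.erase j1) (a := j2)
    have : 0 < ((H.erase j1).erase j2).card := by omega
    exact Finset.card_pos.1 this
  rw [Finset.mem_erase, Finset.mem_erase] at hj
  obtain ⟨hj2', hj1', hjH⟩ := hj
  have a1 := hm1 j hjH
  have a2 := hm2 j hjH
  rw [hH, Finset.mem_filter] at hj1 hj2 hjH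
  have hG' : G.erase j ∈ F.powerset.filter fun G => ∀ n, (∃ j ∈ F, u j ≤ n ∧ n < v j) →
      ∃ j ∈ G, u j ≤ n ∧ n < v j := by
    rw [Finset.mem_filter, Finset.mem_powerset]
    refine ⟨(Finset.erase_subset _ _).trans hG.1, fun n' hn' => ?_⟩
    obtain ⟨i, hi, hi2⟩ := hG.2 n' hn'
    by_cases hij : i = j
    · subst hij
      by_cases hnn : n' ≤ n
      · exact ⟨j1, Finset.mem_erase.2 ⟨fun h => hj1' h.symm, hj1.1⟩, by omega, by omega⟩
      · exact ⟨j2, Finset.mem_erase.2 ⟨fun h => hj2' h.symm, hj2.1⟩, by omega, by omega⟩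
    · exact ⟨i, Finset.mem_erase.2 ⟨hij, hi⟩, hi2⟩
  have h3 := hmin _ hG'
  have h4 := Finset.card_erase_lt_of_mem hjH.1
  omega

lemma sum_len (u v : ℕ → ℕ) (huv : ∀ j, u j < v j) (G : Finset ℕ) (B : ℕ)
    (hB : ∀ j ∈ G, v j ≤ B) (h2 : ∀ n, (G.filter fun j => u j ≤ n ∧ n < v j).card ≤ 2) :
    ∑ j ∈ G, ((v j : ℝ) - u j) ≤ 2 * B := by
  classical
  have h : ∑ j ∈ G, (v j - u j) ≤ 2 * B := by
    have e : ∀ j ∈ G, v j - u j =
        ∑ n ∈ Finset.range B, (if u j ≤ n ∧ n < v j then 1 else 0) := by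
      intro j hj
      rw [Finset.sum_boole, ← Nat.card_Ico]
      simp only [Nat.cast_id]
      congr 1
      ext n
      have := hB j hj
      rw [Finset.mem_Ico, Finset.mem_filter, Finset.mem_range]
      omega
    rw [Finset.sum_congr rfl e, Finset.sum_comm]
    calc _ ≤ ∑ _n ∈ Finset.range B, 2 := by
          apply Finset.sum_le_sum
          intro n _
          rw [Finset.sum_boole]
          simpa using h2 n
      _ = 2 * B := by simp [mul_comm]
  have e2 : ∑ j ∈ G, ((v j : ℝ) - u j) = ((∑ j ∈ G, (v j - u j) : ℕ) : ℝ) := by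
    push_cast
    refine Finset.sum_congr rfl fun j _ => ?_
    rw [Nat.cast_sub (huv j).le]
  rw [e2]
  exact_mod_cast h

/-- the places with a word in `P` -/
lemma cP_le (u v : ℕ → ℕ) {b : ℕ} (a : ℕ → Fin b) {M : ℕ} (P : (Fin M → Fin b) → Prop)
    (hv : Tendsto (fun j => v j - u j) atTop atTop) (J0 V0 C N : ℕ)
    (hV0 : ∀ j < J0, v j ≤ V0) :
    ∃ G : Finset ℕ, (∀ j ∈ G, J0 ≤ j ∧ v j ≤ C * N) ∧
      (∀ n, (G.filter fun j => u j ≤ n ∧ n < v j).card ≤ 2) ∧
      cP a P N ≤ V0 + unc u v C N + ∑ j ∈ G, ∑ w ∈ wP P, cI a (u j) (v j) w := by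
  classical
  obtain ⟨J, hJ⟩ := (tendsto_atTop_atTop.1 hv) (C * N + 1)
  obtain ⟨G, hGF, hGc, hG2⟩ := cover u v
    ((Finset.range J).filter fun j => J0 ≤ j ∧ v j ≤ C * N)
  refine ⟨G, fun j hj => (Finset.mem_filter.1 (hGF hj)).2, hG2, ?_⟩
  have hsub : ((Finset.range N).filter fun n => P (wd a M n)) ⊆
      (Finset.range V0 ∪ ((Finset.range N).filter fun n => ∀ j, v j ≤ C * N →
        ¬ (u j ≤ n ∧ n < v j))) ∪
      G.biUnion fun j => (wP P).biUnion fun w =>
        (Finset.Ico (u j) (v j)).filter fun i => wd a M i = w := by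
    intro n hn
    rw [Finset.mem_filter, Finset.mem_range] at hn
    by_cases hc : ∀ j, v j ≤ C * N → ¬ (u j ≤ n ∧ n < v j)
    · apply Finset.mem_union_left
      apply Finset.mem_union_right
      rw [Finset.mem_filter, Finset.mem_range]
      exact ⟨hn.1, hc⟩
    · push Not at hc
      obtain ⟨j, hj1, hj2, hj3⟩ := hc
      by_cases hjJ : j < J0
      · apply Finset.mem_union_left
        apply Finset.mem_union_left
        rw [Finset.mem_range]
        exact lt_of_lt_of_le hj3 (hV0 j hjJ)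
      · apply Finset.mem_union_right
        have hjJ' : j < J := by
          by_contra hcon
          have := hJ j (by omega)
          omega
        obtain ⟨i, hi1, hi2, hi3⟩ := hGc n ⟨j, by
          rw [Finset.mem_filter, Finset.mem_range]
          exact ⟨hjJ', by omega, hj1⟩, hj2, hj3⟩
        rw [Finset.mem_biUnion]
        refine ⟨i, hi1, ?_⟩
        rw [Finset.mem_biUnion]
        refine ⟨wd a M n, (mem_wP _ _).2 hn.2, ?_⟩
        rw [Finset.mem_filter, Finset.mem_Ico]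
        exact ⟨⟨hi2, hi3⟩, rfl⟩
  unfold cP
  refine (Finset.card_le_card hsub).trans ?_
  refine (Finset.card_union_le _ _).trans ?_
  apply Nat.add_le_add
  · refine (Finset.card_union_le _ _).trans ?_
    rw [Finset.card_range]
    unfold unc
    apply le_of_eq
    congr!
  · refine Finset.card_biUnion_le.trans ?_
    apply Finset.sum_le_sum
    intro j _
    refine Finset.card_biUnion_le.trans ?_
    apply Finset.sum_le_sum
    intro w _
    unfold cI
    apply le_of_eq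
    congr!

theorem main : S_A := by
  intro b _ u v a huv hv hcov C hC0 hC m hm w
  classical
  have hb : (0 : ℝ) < b := by exact_mod_cast Nat.pos_of_ne_zero (NeZero.ne b)
  rw [Metric.tendsto_nhds]
  intro ε0 hε0
  set η : ℝ := ε0 / 8 with hη
  have hη0 : 0 < η := by positivity
  obtain ⟨K, hK⟩ := hcov (ε0 / 8) (by positivity)
  obtain ⟨L, hL1, hL2⟩ : ∃ L : ℕ, 0 < L ∧ 2 * K * C * (2 * m / (η ^ 2 * L)) ≤ ε0 / 8 := by
    obtain ⟨L, hL⟩ := exists_nat_gt (2 * K * C * (2 * m) / (η ^ 2 * (ε0 / 8)))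
    have hL0 : (0 : ℝ) < L := lt_of_le_of_lt (by positivity) hL
    refine ⟨L, by exact_mod_cast hL0, ?_⟩
    rw [div_lt_iff₀ (by positivity)] at hL
    rw [← mul_div_assoc, div_le_iff₀ (by positivity)]
    linarith
  set M := L + m with hM
  set W : ℝ := ((wP (Bad L w η)).card : ℝ) with hW
  have hW0 : 0 ≤ W := Nat.cast_nonneg _
  have hW1 : W ≤ 2 * m / (η ^ 2 * L) * (b : ℝ) ^ M := card_bad w hη0 hL1
  set D : ℝ := 1 + 2 * K * W with hD
  have hD0 : 1 ≤ D := by
    have : 0 ≤ 2 * (K : ℝ) * W := by positivity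
    linarith
  set η' : ℝ := ε0 / 8 / D with hη'
  have hη'0 : 0 < η' := by positivity
  have hall : ∀ᶠ j : ℕ in atTop, ∀ x : Fin M → Fin b,
      (cI a (u j) (v j) x : ℝ) ≤ (C / (b : ℝ) ^ M + η') * ((v j : ℝ) - u j) := by
    rw [Filter.eventually_all]
    intro x
    exact hC M (by omega) x η' hη'0
  obtain ⟨J0, hJ0⟩ := eventually_atTop.1 hall
  set V0 := (Finset.range J0).sup v with hV0
  obtain ⟨N0, hN0⟩ := exists_nat_gt ((V0 + L) / (ε0 / 8))
  filter_upwards [hK, eventually_ge_atTop N0, eventually_gt_atTop 0] with N a1 a3 a4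
  have hN : (0 : ℝ) < N := by exact_mod_cast a4
  have hKL : (V0 : ℝ) + L ≤ ε0 / 8 * N := by
    have h1 : (N0 : ℝ) ≤ N := by exact_mod_cast a3
    rw [div_lt_iff₀ (by positivity)] at hN0
    nlinarith
  obtain ⟨G, hG1, hG2, hG3⟩ := cP_le u v a (Bad L w η) hv J0 V0 K N
    (fun j hj => Finset.le_sup (f := v) (Finset.mem_range.2 hj))
  have hlen := sum_len u v huv G (K * N) (fun j hj => (hG1 j hj).2) hG2
  have hsum : ∑ j ∈ G, ∑ x ∈ wP (Bad L w η), (cI a (u j) (v j) x : ℝ) ≤ ε0 / 4 * N := by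
    have h1 : ∀ j ∈ G, ∑ x ∈ wP (Bad L w η), (cI a (u j) (v j) x : ℝ) ≤
        (W * (C / (b : ℝ) ^ M + η')) * ((v j : ℝ) - u j) := by
      intro j hj
      refine (Finset.sum_le_sum fun x _ => hJ0 j (hG1 j hj).1 x).trans ?_
      rw [Finset.sum_const, nsmul_eq_mul, ← hW]
      apply le_of_eq
      ring
    refine (Finset.sum_le_sum h1).trans ?_
    rw [← Finset.mul_sum]
    have h2 : W * (C / (b : ℝ) ^ M + η') * ∑ j ∈ G, ((v j : ℝ) - u j) ≤
        W * (C / (b : ℝ) ^ M + η') * (2 * ((K * N : ℕ) : ℝ)) :=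
      mul_le_mul_of_nonneg_left hlen (by positivity)
    refine h2.trans ?_
    push_cast
    have h3 : W / (b : ℝ) ^ M ≤ 2 * m / (η ^ 2 * L) := by
      rw [div_le_iff₀ (by positivity)]
      exact hW1
    have h4 : 2 * K * C * (W / (b : ℝ) ^ M) ≤ ε0 / 8 :=
      le_trans (mul_le_mul_of_nonneg_left h3 (by positivity)) hL2
    have h5 : 2 * K * W * η' ≤ ε0 / 8 := by
      have h6 : 2 * K * W ≤ D := by
        rw [hD]
        linarith
      calc _ ≤ D * η' := mul_le_mul_of_nonneg_right h6 hη'0.le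
        _ = ε0 / 8 := by
          rw [hη']
          field_simp
    have e : W * (C / (b : ℝ) ^ M + η') * (2 * ((K : ℝ) * N)) =
        (2 * K * C * (W / (b : ℝ) ^ M) + 2 * K * W * η') * N := by
      field_simp
    rw [e]
    apply mul_le_mul_of_nonneg_right _ hN.le
    linarith
  have hcP : (cP a (Bad L w η) N : ℝ) ≤ V0 + ε0 / 8 * N + ε0 / 4 * N := by
    have h2 : (cP a (Bad L w η) N : ℝ) ≤
        V0 + unc u v K N + ∑ j ∈ G, ∑ x ∈ wP (Bad L w η), (cI a (u j) (v j) x : ℝ) := by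
      exact_mod_cast hG3
    linarith
  have hav := average a w hL1 hη0 N
  rw [Real.dist_eq]
  have e : (cS Set.univ a N w : ℝ) / N - pb b m = ((cS Set.univ a N w : ℝ) - pb b m * N) / N := by
    field_simp
  rw [e, abs_div, abs_of_pos hN, div_lt_iff₀ hN]
  have : η * N = ε0 / 8 * N := by rw [hη]
  nlinarith

end Pool.Agent.Helper28.IV.A
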