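import Pool.Agent.Helper28.IV.A

/-!
# Cutoffs: the intervals `[0, N j)`
-/

set_option autoImplicit false

namespace Pool.Agent.Helper28.IV
open Filter Topology
open Pool.Agent.Helper84.Places

lemma unc_zero (N : ℕ → ℕ) (C M : ℕ) (h : ∃ j, M ≤ N j ∧ N j ≤ C * M) :
    unc (fun _ => 0) N C M = 0 := by
  classical
  obtain ⟨j, h1, h2⟩ := h
  unfold unc
  rw [Finset.card_eq_zero, Finset.filter_eq_empty_iff]
  intro n hn hc
  rw [Finset.mem_range] at hn
  exact hc j h2 ⟨Nat.zero_le _, by omega⟩

theorem cut_iff (N : ℕ → ℕ) (hN : StrictMono N) (h0 : 0 < N 0) :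
    Cov (fun _ => 0) N ↔ ∃ C : ℕ, ∀ j, N (j + 1) ≤ C * N j := by
  classical
  have hpos : ∀ j, 0 < N j := fun j => lt_of_lt_of_le h0 (hN.monotone (Nat.zero_le j))
  constructor
  · intro h
    obtain ⟨C, hC⟩ := h (1 / 3) (by norm_num)
    obtain ⟨M0, hM0⟩ := eventually_atTop.1 hC
    set B := (Finset.range M0).sup (fun j => N (j + 1)) with hB
    refine ⟨2 * C + B, fun j => ?_⟩
    by_cases hj : j < M0
    · have h1 : N (j + 1) ≤ B :=
        Finset.le_sup (f := fun j => N (j + 1)) (Finset.mem_range.2 hj)
      have h2 := hpos j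
      nlinarith
    · by_contra hcon
      push Not at hcon
      have hlt : C * (2 * N j) < N (j + 1) := by
        have : 0 ≤ B * N j := Nat.zero_le _
        nlinarith
      have h3 := hM0 (2 * N j) (by
        have : j ≤ N j := hN.id_le j
        omega)
      have h4 : N j ≤ unc (fun _ => 0) N C (2 * N j) := by
        unfold unc
        have hsub : Finset.Ico (N j) (2 * N j) ⊆ (Finset.range (2 * N j)).filter
            (fun n => ∀ i, N i ≤ C * (2 * N j) → ¬ (0 ≤ n ∧ n < N i)) := by
          intro n hn
          rw [Finset.mem_Ico] at hn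
          rw [Finset.mem_filter, Finset.mem_range]
          refine ⟨hn.2, fun i hi hc => ?_⟩
          have h5 : i < j + 1 := by
            by_contra h6
            have := hN.monotone (not_lt.1 h6)
            omega
          have h7 := hN.monotone (Nat.lt_succ_iff.1 h5)
          omega
        have h5 := Finset.card_le_card hsub
        rw [Nat.card_Ico] at h5
        calc N j = 2 * N j - N j := by omega
          _ ≤ _ := h5
          _ = _ := by congr!
      have h6 : (0 : ℝ) < N j := by exact_mod_cast hpos j
      have h7 : (N j : ℝ) ≤ unc (fun _ => 0) N C (2 * N j) := by exact_mod_cast h4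
      push_cast at h3
      linarith
  · rintro ⟨C, hC⟩ ε hε
    refine ⟨C, ?_⟩
    filter_upwards [eventually_ge_atTop (N 0)] with M hM
    have hex : ∃ j, M < N (j + 1) := ⟨M, lt_of_lt_of_le (Nat.lt_succ_self M) (hN.id_le (M + 1))⟩
    have h1 := Nat.find_spec hex
    have h2 : N (Nat.find hex) ≤ M := by
      rcases Nat.eq_zero_or_pos (Nat.find hex) with h | h
      · rw [h]; exact hM
      · have h3 := Nat.find_min hex (m := Nat.find hex - 1) (by omega)
        have h4 : Nat.find hex - 1 + 1 = Nat.find hex := by omega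
        rw [h4] at h3
        omega
    rw [unc_zero N C M ⟨Nat.find hex + 1, h1.le, (hC _).trans (Nat.mul_le_mul_left C h2)⟩]
    have : (0 : ℝ) ≤ ε * M := by positivity
    simpa using this

/-- a sequence which is normal along all cutoffs -/
theorem cut_exists (b : ℕ) [NeZero b] (hb : 2 ≤ b) (N : ℕ → ℕ) (hN : StrictMono N) :
    ∃ y : ℕ → Fin b, Norm (fun _ => 0) N y := by
  classical
  obtain ⟨y, hy⟩ := exists_seq_S b (S := Set.univ) Set.infinite_univ
  refine ⟨y, fun k hk w => ?_⟩
  have h := (hy k hk w).comp hN.tendsto_atTop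
  refine h.congr fun j => ?_
  simp only [Function.comp]
  congr 1
  · unfold cS cI
    congr 2
    ext i
    simp
  · unfold nS
    simp

end Pool.Agent.Helper28.IV
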