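import Pool.Agent.Helper84.Places.Real

/-!
# Which intervals of places decide normality: definitions and parts (MP_57632f_nt)

`I_j = [u j, v j)` is a sequence of intervals of places with lengths tending to infinity.
-/

set_option autoImplicit false

namespace Pool.Agent.Helper28.IV
open Filter Topology
open Pool.Agent.Helper84.Places

open Classical in
/-- the number of the places `s ≤ i < t` at which the word `w` stands -/
noncomputable def cI {b : ℕ} (a : ℕ → Fin b) (s t : ℕ) {k : ℕ} (w : Fin k → Fin b) : ℕ :=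
  ((Finset.Ico s t).filter fun i => wd a k i = w).card

/-- normality along the intervals -/
def Norm {b : ℕ} (u v : ℕ → ℕ) (a : ℕ → Fin b) : Prop :=
  ∀ k : ℕ, 0 < k → ∀ w : Fin k → Fin b,
    Tendsto (fun j => (cI a (u j) (v j) w : ℝ) / ((v j : ℝ) - u j)) atTop (𝓝 (pb b k))

open Classical in
/-- the number of the places `n < N` which lie in no interval `I_j` contained in `[0, C N)` -/
noncomputable def unc (u v : ℕ → ℕ) (C N : ℕ) : ℕ :=
  ((Finset.range N).filter fun n => ∀ j, v j ≤ C * N → ¬ (u j ≤ n ∧ n < v j)).card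

/-- the covering condition -/
def Cov (u v : ℕ → ℕ) : Prop :=
  ∀ ε : ℝ, 0 < ε → ∃ C : ℕ, ∀ᶠ N : ℕ in atTop, (unc u v C N : ℝ) ≤ ε * N

/-- A: sufficiency.  Like `Pool.Agent.Helper84.Places.suff`. -/
def S_A : Prop := ∀ (b : ℕ) [NeZero b] (u v : ℕ → ℕ) (a : ℕ → Fin b), (∀ j, u j < v j) →
  Tendsto (fun j => v j - u j) atTop atTop → Cov u v → ∀ C : ℝ, 0 ≤ C →
  (∀ k : ℕ, 0 < k → ∀ w : Fin k → Fin b, ∀ η : ℝ, 0 < η →
    ∀ᶠ j : ℕ in atTop, (cI a (u j) (v j) w : ℝ) ≤ (C / (b : ℝ) ^ k + η) * ((v j : ℝ) - u j)) →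
  ∀ m : ℕ, 0 < m → ∀ w : Fin m → Fin b,
    Tendsto (fun N : ℕ => (cS Set.univ a N w : ℝ) / N) atTop (𝓝 (pb b m))

/-- B: necessity.  If `y` is normal along the intervals and `Cov` fails with `ε`, then (if `y` itself
is not normal take `x = y`; otherwise) for unboundedly many `C` and frequently in `N` the set
`Z(C,N)` of the uncovered places has more than `ε N` elements and at most half of them carry the
digit `e`, with `e = 0` or `e = 1` fixed.  Choose `C_i ≥ i + 1`, `N_(i+1) ≥ 2 N_i` and let `x = e` on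
all the `Z_i`, `x = y` elsewhere.  An interval which meets `Z_i` has `v j > C_i N_i`, `u j < N_i`, so
its length is at least `i N_i`; hence it has few places in the union `Z` of the `Z_i`, and `x` is
normal along the intervals; but the frequency of `e` up to `N_i` is at least `1/b + ε/2 - o(1)`. -/
def S_B : Prop := ∀ (b : ℕ) [NeZero b] (u v : ℕ → ℕ) (y : ℕ → Fin b), 2 ≤ b → (∀ j, u j < v j) →
  Tendsto (fun j => v j - u j) atTop atTop → ¬ Cov u v → Norm u v y →
  ∃ x : ℕ → Fin b, Norm u v x ∧ ∃ (m : ℕ) (w : Fin m → Fin b), 0 < m ∧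
    ¬ Tendsto (fun N : ℕ => (cS Set.univ x N w : ℝ) / N) atTop (𝓝 (pb b m))

/-- C: existence.  Random digits (`Pool.Agent.Helper84.Places.ran`), Chebyshev and Borel-Cantelli:
the variance of `cI` is at most `2 k (v j - u j)` (`iv_indep`). -/
def S_C : Prop := ∀ (b : ℕ) [NeZero b] (u v : ℕ → ℕ), 2 ≤ b → (∀ j, u j < v j) →
  Summable (fun j => 1 / ((v j : ℝ) - u j)) → ∃ y : ℕ → Fin b, Norm u v y

end Pool.Agent.Helper28.IV
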